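import Pool.Agent.MP_c8d41b_gt.gf.Bridge

open Pool.Agent.MP_c8d41b_gt.St

/-- Two embedded Lagrangians in the cotangent bundle of a closed `(4j-1)`-manifold
`M = g⁻¹(0)` with homotopic generating functions: a regular homotopy exists, and the
fibre-critical set of every regular homotopy (a framed cobordism between the two Lagrangians)
has signature zero. -/
theorem Pool.Agent.Results.MP_c8d41b_gt.SignatureZero.result :
    ∀ (p q k j : ℕ) (g : (Fin p → ℝ) → Fin q → ℝ) (f₀ f₁ : Tot p k → ℝ), 1 ≤ j →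
      1 + p = 4 * j + q → Base g → Gen g f₀ → Gen g f₁ → (∃ F, Path g F f₀ f₁) →
      (∃ F, Path g F f₀ f₁ ∧ Reg (cob g F)) ∧
        ∀ F, Path g F f₀ f₁ → Reg (cob g F) → SigZero (cob g F) (2 * j) :=
  Pool.Agent.MP_c8d41b_gt.GF.Br.final
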